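import Mathlib

/-!
For every dimension at least two we construct an unbounded domain on which the norm has a harmonic
majorant while the function |x_1| log^+ |x_1| has no harmonic majorant.
-/

namespace Pool.Agent.Results.MP_677f70_an.LogMajorant

open Set Filter Topology InnerProductSpace Laplacian

/-! ### Calculus preliminaries and a weak maximum principle -/

/-- Second derivative of a composition with a continuous linear map (at one point). -/
theorem iter2_comp {G W F : Type*} [NormedAddCommGroup G] [NormedSpace ℝ G]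
    [NormedAddCommGroup W] [NormedSpace ℝ W] [NormedAddCommGroup F] [NormedSpace ℝ F]
    (L : G →L[ℝ] W) (f : W → F) (x : G) (hf : ContDiffAt ℝ 2 f (L x)) (v w : G) :
    iteratedFDeriv ℝ 2 (f ∘ L) x ![v, w] = iteratedFDeriv ℝ 2 f (L x) ![L v, L w] := by
  have hev : ∀ᶠ z in 𝓝 (L x), ContDiffAt ℝ 2 f z := hf.eventually (by simp)
  obtain ⟨s, hs1, hs2, hs3⟩ := eventually_nhds_iff.mp hev
  have hs4 : IsOpen (L ⁻¹' s) := hs2.preimage L.continuous
  have h := ContinuousLinearMap.iteratedFDerivWithin_comp_right (i := 2) (n := 2) L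
    (fun z hz => (hs1 z hz).contDiffWithinAt) hs2.uniqueDiffOn hs4.uniqueDiffOn hs3 le_rfl
  rw [iteratedFDerivWithin_of_isOpen 2 hs4 hs3, iteratedFDerivWithin_of_isOpen 2 hs2 hs3] at h
  rw [h]
  simp only [ContinuousMultilinearMap.compContinuousLinearMap_apply]
  congr 1
  ext i
  fin_cases i <;> simp

/-- Second derivative along a line. -/
theorem iter2_line {G : Type*} [NormedAddCommGroup G] [NormedSpace ℝ G]
    (f : G → ℝ) (x e : G) (hf : ContDiffAt ℝ 2 f x) :
    deriv (deriv (fun t : ℝ => f (x + t • e))) 0 = iteratedFDeriv ℝ 2 f x ![e, e] := by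
  let L : ℝ →L[ℝ] G := ContinuousLinearMap.toSpanSingleton ℝ e
  let f' : G → ℝ := fun v => f (x + v)
  have hf' : ContDiffAt ℝ 2 f' (L 0) := by
    have : ContDiffAt ℝ 2 f (x + L 0) := by simpa using hf
    exact ContDiffAt.comp (L 0) this (by fun_prop)
  have h1 := iter2_comp L f' 0 hf' 1 1
  have h2 : iteratedFDeriv ℝ 2 f' (L 0) = iteratedFDeriv ℝ 2 f (x + L 0) := by
    have := iteratedFDeriv_comp_add_left (𝕜 := ℝ) (f := f) 2 x (L 0)
    simpa [f', add_comm] using this
  have h3 : (f' ∘ L) = fun t : ℝ => f (x + t • e) := by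
    ext t
    simp [f', L]
  rw [h3, h2] at h1
  have h4 : L 1 = e := by simp [L]
  have h5 : L 0 = 0 := by simp
  rw [h4, h5, add_zero] at h1
  rw [← h1]
  have h6 : deriv (deriv (fun t : ℝ => f (x + t • e))) 0 = iteratedDeriv 2 (fun t : ℝ => f (x + t • e)) 0 := by
    rw [iteratedDeriv_succ, iteratedDeriv_one]
  rw [h6, iteratedDeriv_eq_iteratedFDeriv]
  congr 1
  ext i
  fin_cases i <;> simp

/-- At a local maximum the second derivative of a function of one variable is not positive. -/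
theorem deriv2_nonpos_of_isLocalMax (g : ℝ → ℝ) (hg : ContinuousAt g 0)
    (hmax : IsLocalMax g 0) : deriv (deriv g) 0 ≤ 0 := by
  by_contra hcon
  push Not at hcon
  have hd : deriv g 0 = 0 := hmax.deriv_eq_zero
  have hmin : IsLocalMin g 0 := isLocalMin_of_deriv_deriv_pos hcon hd hg
  have hconst : g =ᶠ[𝓝 0] fun _ => g 0 := by
    filter_upwards [hmax, hmin] with t h1 h2
    exact le_antisymm h1 h2
  have h1 : deriv g =ᶠ[𝓝 0] deriv (fun _ => g 0) := hconst.deriv
  have h2 : deriv (deriv g) 0 = deriv (deriv (fun _ : ℝ => g 0)) 0 := h1.deriv_eq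
  rw [h2] at hcon
  simp at hcon

/-- At a local maximum the Laplacian is not positive. -/
theorem laplacian_nonpos_of_isLocalMax {n : ℕ} (s : EuclideanSpace ℝ (Fin n) → ℝ)
    (x : EuclideanSpace ℝ (Fin n)) (hs : ContDiffAt ℝ 2 s x) (hmax : IsLocalMax s x) :
    Δ s x ≤ 0 := by
  rw [laplacian_eq_iteratedFDeriv_orthonormalBasis s (EuclideanSpace.basisFun (Fin n) ℝ)]
  apply Finset.sum_nonpos
  intro j _
  set e := EuclideanSpace.basisFun (Fin n) ℝ j
  rw [← iter2_line s x e hs]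
  have hcont : ContinuousAt (fun t : ℝ => x + t • e) 0 := by fun_prop
  have hx0 : x + (0:ℝ) • e = x := by simp
  apply deriv2_nonpos_of_isLocalMax
  · have hsc : ContinuousAt s (x + (0:ℝ) • e) := by rw [hx0]; exact hs.continuousAt
    exact ContinuousAt.comp (f := fun t : ℝ => x + t • e) (g := s) hsc hcont
  · have h1 : ∀ᶠ z in 𝓝 (x + (0:ℝ) • e), s z ≤ s x := by rw [hx0]; exact hmax
    have h2 := hcont.eventually h1
    filter_upwards [h2] with t ht
    simpa [hx0] using ht

/-- The Laplacian of the square of the coordinate `0`. -/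
theorem laplacian_sq {n : ℕ} (x : EuclideanSpace ℝ (Fin (n+1))) :
    Δ (fun z : EuclideanSpace ℝ (Fin (n+1)) => (z 0) ^ 2) x = 2 := by
  have hc : ContDiff ℝ 2 (fun z : EuclideanSpace ℝ (Fin (n+1)) => (z 0) ^ 2) := by fun_prop
  rw [laplacian_eq_iteratedFDeriv_orthonormalBasis _ (EuclideanSpace.basisFun (Fin (n+1)) ℝ)]
  have key : ∀ j : Fin (n+1), iteratedFDeriv ℝ 2 (fun z : EuclideanSpace ℝ (Fin (n+1)) => (z 0) ^ 2) x
      ![EuclideanSpace.basisFun (Fin (n+1)) ℝ j, EuclideanSpace.basisFun (Fin (n+1)) ℝ j] =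
      if j = 0 then 2 else 0 := by
    intro j
    rw [← iter2_line _ x _ hc.contDiffAt]
    by_cases hj : j = 0
    · subst hj
      have h1 : (fun t : ℝ => (fun z : EuclideanSpace ℝ (Fin (n+1)) => (z 0) ^ 2)
          (x + t • EuclideanSpace.basisFun (Fin (n+1)) ℝ 0)) = fun t : ℝ => (x 0 + t) ^ 2 := by
        ext t
        simp
      rw [h1]
      have h2 : deriv (fun t : ℝ => (x 0 + t) ^ 2) = fun t => 2 * (x 0 + t) := by
        ext t
        have h := ((hasDerivAt_id t).const_add (x 0)).fun_pow 2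
        exact h.deriv.trans (by simp)
      rw [h2]
      have h3 : HasDerivAt (fun t : ℝ => 2 * (x 0 + t)) 2 0 := by
        have := ((hasDerivAt_id (0:ℝ)).const_add (x 0)).const_mul 2
        simpa using this
      rw [h3.deriv]
      simp
    · have h1 : (fun t : ℝ => (fun z : EuclideanSpace ℝ (Fin (n+1)) => (z 0) ^ 2)
          (x + t • EuclideanSpace.basisFun (Fin (n+1)) ℝ j)) = fun t : ℝ => (x 0) ^ 2 := by
        ext t
        simp [Ne.symm hj]
      rw [h1]
      simp [hj]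
  simp only [key]
  simp

/-- A weak maximum principle. -/
theorem max_principle {n : ℕ} {U : Set (EuclideanSpace ℝ (Fin (n+1)))} (hU : IsOpen U)
    (hb : Bornology.IsBounded U) {v h ψ : EuclideanSpace ℝ (Fin (n+1)) → ℝ}
    (hv : HarmonicOnNhd v U) (hh : HarmonicOnNhd h U)
    (hψ : ContinuousOn ψ (closure U)) (hψ0 : ∀ x ∈ frontier U, ψ x ≤ 0)
    (hle : ∀ x ∈ U, v x - h x ≤ ψ x) : ∀ x ∈ U, v x ≤ h x := by
  intro x₁ hx₁
  by_contra hcon
  push Not at hcon
  set δ : ℝ := v x₁ - h x₁ with hδ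
  have hδ0 : 0 < δ := by linarith
  obtain ⟨R, hR⟩ := hb.exists_norm_le
  set C : Set (EuclideanSpace ℝ (Fin (n+1))) := closure U ∩ ψ ⁻¹' (Ici (δ/2)) with hC
  have hCcl : IsClosed C := hψ.preimage_isClosed_of_isClosed isClosed_closure isClosed_Ici
  have hCb : Bornology.IsBounded C := hb.closure.subset inter_subset_left
  have hCc : IsCompact C := Metric.isCompact_of_isClosed_isBounded hCcl hCb
  have hCU : C ⊆ U := by
    intro z hz
    by_contra hzU
    have hzf : z ∈ frontier U := by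
      rw [hU.frontier_eq]
      exact ⟨hz.1, hzU⟩
    have h1 := hψ0 z hzf
    have h2 : δ/2 ≤ ψ z := hz.2
    linarith
  set ε : ℝ := δ / (4 * (R^2 + 1)) with hε
  have hR1 : 0 < R^2 + 1 := by positivity
  have hε0 : 0 < ε := by positivity
  have hεR : ε * R^2 ≤ δ/4 := by
    rw [hε, div_mul_eq_mul_div, div_le_div_iff₀ (by positivity) (by norm_num)]
    nlinarith
  set q : EuclideanSpace ℝ (Fin (n+1)) → ℝ := fun z => (z 0) ^ 2 with hq
  have hq0 : ∀ z, 0 ≤ q z := fun z => sq_nonneg _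
  have hqR : ∀ z ∈ U, q z ≤ R^2 := by
    intro z hz
    have h1 := hR z hz
    have h2 : |z 0| ≤ ‖z‖ := by
      have := PiLp.norm_apply_le z 0
      simpa using this
    have h3 : |z 0| ≤ R := h2.trans h1
    show (z 0)^2 ≤ R^2
    rw [← sq_abs]
    exact pow_le_pow_left₀ (abs_nonneg _) h3 2
  set s : EuclideanSpace ℝ (Fin (n+1)) → ℝ := (v - h) + ε • q with hs
  have hsC : ∀ z ∈ U, ContDiffAt ℝ 2 s z := by
    intro z hz
    have h1 := ((hv z hz).1.sub (hh z hz).1)
    have h2 : ContDiffAt ℝ 2 (ε • q) z := by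
      have : ContDiff ℝ 2 q := by simp only [hq]; fun_prop
      exact this.contDiffAt.const_smul ε
    exact h1.add h2
  have hx₁C : x₁ ∈ C := by
    refine ⟨subset_closure hx₁, ?_⟩
    have := hle x₁ hx₁
    show δ/2 ≤ ψ x₁
    linarith
  obtain ⟨x₂, hx₂C, hx₂⟩ := hCc.exists_isMaxOn ⟨x₁, hx₁C⟩
    (fun z hz => (hsC z (hCU hz)).continuousAt.continuousWithinAt)
  have hx₂U : x₂ ∈ U := hCU hx₂C
  have hval : δ ≤ s x₂ := by
    have h1 : s x₁ ≤ s x₂ := hx₂ hx₁C
    have h2 : s x₁ = δ + ε * q x₁ := by simp [hs, hδ]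
    have h3 := mul_nonneg hε0.le (hq0 x₁)
    linarith
  have hmaxU : ∀ z ∈ U, s z ≤ s x₂ := by
    intro z hz
    by_cases hzC : z ∈ C
    · exact hx₂ hzC
    · have h1 : ψ z < δ/2 := by
        by_contra h2
        push Not at h2
        exact hzC ⟨subset_closure hz, h2⟩
      have h2 := hle z hz
      have h3 : s z = (v z - h z) + ε * q z := by simp [hs]
      have h4 : ε * q z ≤ ε * R^2 := mul_le_mul_of_nonneg_left (hqR z hz) hε0.le
      linarith
  have hloc : IsLocalMax s x₂ := by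
    filter_upwards [hU.mem_nhds hx₂U] with z hz
    exact hmaxU z hz
  have h1 := laplacian_nonpos_of_isLocalMax s x₂ (hsC x₂ hx₂U) hloc
  have h2 : Δ s x₂ = ε * 2 := by
    have ha : ContDiffAt ℝ 2 (v - h) x₂ := (hv x₂ hx₂U).1.sub (hh x₂ hx₂U).1
    have hqc : ContDiffAt ℝ 2 q x₂ := by
      have : ContDiff ℝ 2 q := by simp only [hq]; fun_prop
      exact this.contDiffAt
    have hb' : ContDiffAt ℝ 2 (ε • q) x₂ := hqc.const_smul ε
    rw [hs, ha.laplacian_add hb', laplacian_smul ε hqc]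
    have hc : Δ (v - h) x₂ = 0 := ((hv x₂ hx₂U).sub (hh x₂ hx₂U)).2.self_of_nhds
    rw [hc, laplacian_sq]
    simp
  rw [h2] at h1
  linarith


/-- The linear map `x ↦ x_n - i x_j` into the complex plane. -/
noncomputable def zet (k : ℕ) (i : Fin (k+1)) : EuclideanSpace ℝ (Fin (k+2)) →L[ℝ] ℂ :=
  (EuclideanSpace.proj (Fin.last (k+1)) : EuclideanSpace ℝ (Fin (k+2)) →L[ℝ] ℝ).smulRight (1 : ℂ)
    - (EuclideanSpace.proj i.castSucc : EuclideanSpace ℝ (Fin (k+2)) →L[ℝ] ℝ).smulRight Complex.I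

theorem zet_apply (k : ℕ) (i : Fin (k+1)) (x : EuclideanSpace ℝ (Fin (k+2))) :
    zet k i x = (x (Fin.last (k+1)) : ℂ) - (x i.castSucc : ℂ) * Complex.I := by
  simp [zet]

theorem zet_re (k : ℕ) (i : Fin (k+1)) (x : EuclideanSpace ℝ (Fin (k+2))) :
    (zet k i x).re = x (Fin.last (k+1)) := by
  simp [zet_apply]

theorem zet_im (k : ℕ) (i : Fin (k+1)) (x : EuclideanSpace ℝ (Fin (k+2))) :
    (zet k i x).im = - x i.castSucc := by
  simp [zet_apply]

theorem zet_basis_last (k : ℕ) (i : Fin (k+1)) :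
    zet k i (EuclideanSpace.basisFun (Fin (k+2)) ℝ (Fin.last (k+1))) = 1 := by
  rw [zet_apply]
  have : i.castSucc ≠ Fin.last (k+1) := (Fin.castSucc_lt_last i).ne
  simp [this]

theorem zet_basis_castSucc (k : ℕ) (i j : Fin (k+1)) :
    zet k i (EuclideanSpace.basisFun (Fin (k+2)) ℝ j.castSucc) = if j = i then - Complex.I else 0 := by
  rw [zet_apply]
  have h : Fin.last (k+1) ≠ j.castSucc := (Fin.castSucc_lt_last j).ne'
  by_cases hji : j = i
  · subst hji
    simp [h]
  · have h2 : i ≠ j := fun h => hji h.symm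
    simp [h, hji, h2]

/-- A harmonic function of `x_n - i x_j` is harmonic. -/
theorem harmonicAt_comp_zet (k : ℕ) (i : Fin (k+1)) (f : ℂ → ℝ)
    (x : EuclideanSpace ℝ (Fin (k+2))) (hf : HarmonicAt f (zet k i x)) :
    HarmonicAt (fun z => f (zet k i z)) x := by
  constructor
  · exact ContDiffAt.comp x hf.1 (zet k i).contDiff.contDiffAt
  · have h1 := (zet k i).continuous.continuousAt.eventually hf.eventually
    filter_upwards [h1] with z hz
    have hz1 := hz.1
    have hz2 : Δ f (zet k i z) = 0 := hz.2.self_of_nhds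
    have h2 : (fun z => f (zet k i z)) = f ∘ (zet k i) := rfl
    rw [h2, laplacian_eq_iteratedFDeriv_orthonormalBasis _ (EuclideanSpace.basisFun (Fin (k+2)) ℝ)]
    show ∑ j, iteratedFDeriv ℝ 2 (f ∘ (zet k i)) z ![EuclideanSpace.basisFun (Fin (k+2)) ℝ j,
      EuclideanSpace.basisFun (Fin (k+2)) ℝ j] = 0
    rw [Fin.sum_univ_castSucc]
    simp only [iter2_comp (zet k i) f z hz1, zet_basis_last, zet_basis_castSucc]
    rw [laplacian_eq_iteratedFDeriv_complexPlane] at hz2
    simp only [← bilinearIteratedFDerivTwo_eq_iteratedFDeriv] at hz2 ⊢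
    rw [Finset.sum_eq_single i]
    · simp only [if_true, map_neg, LinearMap.neg_apply, neg_neg]
      rw [add_comm]
      exact hz2
    · intro j _ hj
      simp [hj]
    · simp


/-! ### Three harmonic functions of one complex variable -/

/-- Real part of `z log z`. -/
noncomputable def F1 (z : ℂ) : ℝ := (z * Complex.log z).re

/-- Real part of `z (log z)^2`. -/
noncomputable def F2 (z : ℂ) : ℝ := (z * (Complex.log z) ^ 2).re

/-- Real part of `z (log z)^(3/2)`. -/
noncomputable def F3 (z : ℂ) : ℝ := (z * ((Complex.log z) ^ ((2 : ℂ)⁻¹)) ^ 3).re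

theorem slit_of_re {z : ℂ} (hz : 0 < z.re) : z ∈ Complex.slitPlane := by
  rw [Complex.mem_slitPlane_iff]
  exact Or.inl hz

theorem one_lt_norm {z : ℂ} (hz : 1 < z.re) : 1 < ‖z‖ :=
  lt_of_lt_of_le hz (Complex.re_le_norm z)

theorem log_re_pos {z : ℂ} (hz : 1 < z.re) : 0 < (Complex.log z).re := by
  rw [Complex.log_re]
  exact Real.log_pos (one_lt_norm hz)

theorem harmonic_F1 {z : ℂ} (hz : 1 < z.re) : HarmonicAt F1 z := by
  apply AnalyticAt.harmonicAt_re
  exact analyticAt_id.mul (analyticAt_clog (slit_of_re (by linarith)))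

theorem harmonic_F2 {z : ℂ} (hz : 1 < z.re) : HarmonicAt F2 z := by
  apply AnalyticAt.harmonicAt_re
  exact analyticAt_id.mul ((analyticAt_clog (slit_of_re (by linarith))).pow 2)

theorem harmonic_F3 {z : ℂ} (hz : 1 < z.re) : HarmonicAt F3 z := by
  apply AnalyticAt.harmonicAt_re
  refine analyticAt_id.mul (AnalyticAt.pow ?_ 3)
  exact (analyticAt_clog (slit_of_re (by linarith))).cpow analyticAt_const
    (slit_of_re (log_re_pos hz))

theorem harmonic_re (z : ℂ) : HarmonicAt (fun z : ℂ => z.re) z :=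
  AnalyticAt.harmonicAt_re analyticAt_id

theorem F1_eq (z : ℂ) : F1 z = z.re * Real.log ‖z‖ - z.im * Complex.arg z := by
  simp [F1, Complex.mul_re, Complex.log_re, Complex.log_im]

theorem F2_eq (z : ℂ) : F2 z = z.re * ((Real.log ‖z‖) ^ 2 - (Complex.arg z) ^ 2)
    - 2 * Real.log ‖z‖ * (z.im * Complex.arg z) := by
  simp only [F2, Complex.mul_re, Complex.log_re, Complex.log_im, pow_two, Complex.mul_im]
  ring

/-- Properties of the principal square root. -/
theorem sqrt_props {w : ℂ} (hw : 0 < w.re) : ∃ p q : ℝ, w ^ ((2 : ℂ)⁻¹) = ⟨p, q⟩ ∧ 0 < p ∧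
    p ^ 2 - q ^ 2 = w.re ∧ 2 * p * q = w.im := by
  refine ⟨(w ^ ((2 : ℂ)⁻¹)).re, (w ^ ((2 : ℂ)⁻¹)).im, rfl, ?_⟩
  have hsq : (w ^ ((2 : ℂ)⁻¹)) ^ 2 = w := Complex.cpow_ofNat_inv_pow w 2
  set s := w ^ ((2 : ℂ)⁻¹) with hs
  have hre : s.re ^ 2 - s.im ^ 2 = w.re := by
    rw [← hsq, pow_two s, Complex.mul_re]; ring
  have him : 2 * s.re * s.im = w.im := by
    rw [← hsq, pow_two s, Complex.mul_im]; ring
  have hge : 0 ≤ s.re := by
    have hw0 : w ≠ 0 := by
      intro h
      rw [h] at hw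
      simp at hw
    rw [hs, Complex.cpow_def_of_ne_zero hw0, Complex.exp_re]
    apply mul_nonneg (Real.exp_pos _).le
    have him2 : (Complex.log w * 2⁻¹).im = Complex.arg w / 2 := by
      rw [show (2⁻¹ : ℂ) = ((2⁻¹ : ℝ) : ℂ) by norm_num, Complex.im_mul_ofReal, Complex.log_im]
      ring
    rw [him2]
    apply Real.cos_nonneg_of_neg_pi_div_two_le_of_le
    · linarith [Complex.neg_pi_lt_arg w]
    · linarith [Complex.arg_le_pi w]
  have hpos : 0 < s.re := by
    rcases hge.lt_or_eq with h | h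
    · exact h
    · exfalso
      rw [← h] at hre
      nlinarith [sq_nonneg s.im]
  exact ⟨hpos, hre, him⟩

theorem arg_abs_lt {z : ℂ} (hz : 0 < z.re) : |Complex.arg z| < Real.pi / 2 := by
  exact Complex.abs_arg_lt_pi_div_two_iff.mpr (Or.inl hz)

/-- `im z * arg z` is the product of the absolute values. -/
theorem im_mul_arg_nonneg (z : ℂ) : 0 ≤ z.im * Complex.arg z := by
  rcases le_total 0 z.im with h | h
  · exact mul_nonneg h (Complex.arg_nonneg_iff.mpr h)
  · rcases h.lt_or_eq with h1 | h1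
    · exact (mul_pos_of_neg_of_neg h1 (Complex.arg_neg_iff.mpr h1)).le
    · rw [h1, zero_mul]

theorem im_mul_arg_le {z : ℂ} (hz : 0 < z.re) : z.im * Complex.arg z ≤ Real.pi / 2 * |z.im| := by
  calc z.im * Complex.arg z ≤ |z.im * Complex.arg z| := le_abs_self _
    _ = |z.im| * |Complex.arg z| := abs_mul _ _
    _ ≤ |z.im| * (Real.pi / 2) := mul_le_mul_of_nonneg_left (arg_abs_lt hz).le (abs_nonneg _)
    _ = _ := by ring

theorem le_im_mul_arg {z : ℂ} (hz : 0 < z.re) :
    Real.pi / 2 * |z.im| - z.re ≤ z.im * Complex.arg z := by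
  have h1 : z.im * Complex.arg z = |z.im| * |Complex.arg z| := by
    rw [← abs_mul, abs_of_nonneg (im_mul_arg_nonneg z)]
  rw [h1]
  set ψ : ℝ := Real.pi / 2 - |Complex.arg z| with hψ
  have hψ0 : 0 < ψ := by linarith [arg_abs_lt hz]
  have hψ1 : ψ ≤ Real.pi / 2 := by linarith [abs_nonneg (Complex.arg z)]
  have hre : z.re = ‖z‖ * Real.sin ψ := by
    rw [hψ, Real.sin_pi_div_two_sub, Real.cos_abs, Complex.norm_mul_cos_arg]
  have him : |z.im| = ‖z‖ * Real.cos ψ := by
    rw [hψ, Real.cos_pi_div_two_sub, ← Complex.norm_mul_sin_arg z, abs_mul, abs_norm]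
    congr 1
    rcases le_total 0 (Complex.arg z) with h | h
    · rw [abs_of_nonneg h, abs_of_nonneg]
      exact Real.sin_nonneg_of_nonneg_of_le_pi h (Complex.arg_le_pi z)
    · rw [abs_of_nonpos h, Real.sin_neg, abs_of_nonpos]
      exact Real.sin_nonpos_of_nonpos_of_neg_pi_le h (Complex.neg_pi_lt_arg z).le
  have hkey : ψ * Real.cos ψ ≤ Real.sin ψ := by
    rcases hψ1.lt_or_eq with h | h
    · have hcos : 0 < Real.cos ψ := Real.cos_pos_of_mem_Ioo ⟨by linarith, h⟩
      have h2 := Real.lt_tan hψ0 h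
      rw [Real.tan_eq_sin_div_cos, lt_div_iff₀ hcos] at h2
      exact h2.le
    · rw [h, Real.cos_pi_div_two, Real.sin_pi_div_two]
      norm_num
  have harg : |Complex.arg z| = Real.pi / 2 - ψ := by rw [hψ]; ring
  rw [harg]
  have h3 : |z.im| * ψ ≤ z.re := by
    rw [him, hre]
    have := mul_le_mul_of_nonneg_left hkey (norm_nonneg z)
    nlinarith
  nlinarith

/-- The upper bound for the real part of `z (log z)^(3/2)`. -/
theorem F3_le {z : ℂ} (hz : 1 < z.re) :
    F3 z ≤ Real.sqrt (Real.log ‖z‖) * (Real.log ‖z‖ * z.re - 3 / 2 * (z.im * Complex.arg z)) := by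
  have hL := log_re_pos hz
  obtain ⟨p, q, hs, hp, h1, h2⟩ := sqrt_props hL
  have hz0 : 0 < z.re := by linarith
  rw [Complex.log_re] at h1 hL
  rw [Complex.log_im] at h2
  have hF : F3 z = z.re * (p ^ 3 - 3 * p * q ^ 2) - z.im * (3 * p ^ 2 * q - q ^ 3) := by
    unfold F3
    rw [hs]
    simp only [pow_succ, pow_zero, one_mul, Complex.mul_re, Complex.mul_im]
    ring
  rw [hF]
  set L := Real.log ‖z‖ with hLdef
  set r := Real.sqrt L with hr
  have hr0 : 0 < r := Real.sqrt_pos.mpr hL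
  have hrL : r ^ 2 = L := Real.sq_sqrt hL.le
  have hrp : r ≤ p := by
    have : r ^ 2 ≤ p ^ 2 := by rw [hrL, ← h1]; nlinarith [sq_nonneg q]
    exact (abs_le_of_sq_le_sq' this hp.le).2
  have hbq : 0 ≤ z.im * q := by
    have h3 := im_mul_arg_nonneg z
    rw [← h2] at h3
    have h4 : 0 ≤ (2 * p) * (z.im * q) := by nlinarith
    exact nonneg_of_mul_nonneg_right h4 (by positivity)
  have hA : p ^ 3 - 3 * p * q ^ 2 ≤ r * L := by
    rcases le_total (p ^ 2) (3 * q ^ 2) with h | h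
    · have : p ^ 3 - 3 * p * q ^ 2 = p * (p ^ 2 - 3 * q ^ 2) := by ring
      rw [this]
      have h5 : p * (p ^ 2 - 3 * q ^ 2) ≤ 0 := mul_nonpos_of_nonneg_of_nonpos hp.le (by linarith)
      have h6 : 0 ≤ r * L := by positivity
      linarith
    · have h5 : (p ^ 3 - 3 * p * q ^ 2) ^ 2 ≤ (r * L) ^ 2 := by
        have e1 : (r * L) ^ 2 = (p ^ 2 - q ^ 2) ^ 3 := by
          rw [mul_pow, hrL, ← h1]; ring
        rw [e1]
        have e2 : (p ^ 2 - q ^ 2) ^ 3 - (p ^ 3 - 3 * p * q ^ 2) ^ 2 =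
            q ^ 2 * (3 * p ^ 2 * (p ^ 2 - 3 * q ^ 2) + q ^ 2 * (3 * p ^ 2 - q ^ 2)) := by ring
        have e3 : 0 ≤ 3 * p ^ 2 * (p ^ 2 - 3 * q ^ 2) :=
          mul_nonneg (by positivity) (by linarith)
        have e4 : 0 ≤ q ^ 2 * (3 * p ^ 2 - q ^ 2) :=
          mul_nonneg (sq_nonneg q) (by nlinarith [sq_nonneg q])
        have e5 : 0 ≤ q ^ 2 * (3 * p ^ 2 * (p ^ 2 - 3 * q ^ 2) + q ^ 2 * (3 * p ^ 2 - q ^ 2)) :=
          mul_nonneg (sq_nonneg q) (by linarith)
        linarith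
      exact (abs_le_of_sq_le_sq' h5 (by positivity)).2
  have hB : 3 * p * r ≤ 3 * p ^ 2 - q ^ 2 := by
    nlinarith [sq_nonneg (p - r), sq_nonneg q]
  have h7 : z.re * (p ^ 3 - 3 * p * q ^ 2) ≤ z.re * (r * L) := mul_le_mul_of_nonneg_left hA hz0.le
  have h8 : (z.im * q) * (3 * p * r) ≤ (z.im * q) * (3 * p ^ 2 - q ^ 2) :=
    mul_le_mul_of_nonneg_left hB hbq
  rw [← h2]
  nlinarith


/-- The value of `F3` at a real point. -/
theorem F3_real {t : ℝ} (ht : 1 < t) : F3 (t : ℂ) = t * (Real.log t * Real.sqrt (Real.log t)) := by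
  have hz : 1 < ((t : ℝ) : ℂ).re := by simpa using ht
  have hL := log_re_pos hz
  obtain ⟨p, q, hs, hp, h1, h2⟩ := sqrt_props hL
  have hlog : Real.log ‖(t : ℂ)‖ = Real.log t := by
    rw [Complex.norm_real, Real.norm_of_nonneg (by linarith)]
  have harg : Complex.arg (t : ℂ) = 0 := Complex.arg_ofReal_of_nonneg (by linarith)
  rw [Complex.log_re, hlog] at h1 hL
  rw [Complex.log_im, harg] at h2
  have hq : q = 0 := by
    rcases mul_eq_zero.mp h2 with h | h
    · exfalso; linarith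
    · exact h
  subst hq
  have hpr : Real.sqrt (Real.log t) = p := by
    rw [← h1]
    simp [Real.sqrt_sq hp.le]
  have hF : F3 (t : ℂ) = t * p ^ 3 := by
    unfold F3
    rw [hs]
    simp only [pow_succ, pow_zero, one_mul, Complex.mul_re, Complex.mul_im, Complex.ofReal_re,
      Complex.ofReal_im]
    ring
  rw [hF, hpr, ← h1]
  ring

/-- The key upper bound which makes the squared-logarithm function a minorant. -/
theorem minorant_bound {z : ℂ} (hz : 20 ≤ z.re) (hlog : 4 ≤ Real.log z.re) (s : ℝ)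
    (hs : s ≤ 1 / 2 * (z.re * (Real.log z.re) ^ 2)) :
    - F2 z + s ≤ 2 * Real.pi * (|z.im| * Real.posLog |z.im|) := by
  have hz0 : 0 < z.re := by linarith
  rw [F2_eq]
  set y := z.re with hy
  set a := |z.im| with ha
  set L := Real.log ‖z‖ with hL
  have ha0 : 0 ≤ a := abs_nonneg _
  have hyL : Real.log y ≤ L := Real.log_le_log hz0 (Complex.re_le_norm z)
  have hL4 : 4 ≤ L := hlog.trans hyL
  have hpi := Real.pi_gt_three
  have hpi2 := Real.pi_lt_four
  have hpi3 := Real.pi_pos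
  have harg : (Complex.arg z) ^ 2 ≤ 4 := by
    have h1 := arg_abs_lt hz0
    have h2 : |Complex.arg z| ≤ 2 := by linarith
    rw [← sq_abs]
    nlinarith [abs_nonneg (Complex.arg z)]
  have hb := im_mul_arg_le hz0
  have hb0 := im_mul_arg_nonneg z
  set c := z.im * Complex.arg z with hc
  have h1 : (Real.log y) ^ 2 ≤ L ^ 2 := pow_le_pow_left₀ (by linarith) hyL 2
  -- the expression is at most `π L a - y L^2 / 4`
  have h2 : -(y * (L ^ 2 - (Complex.arg z) ^ 2) - 2 * L * c) + s ≤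
      Real.pi * L * a - 1 / 4 * (y * L ^ 2) := by
    have e1 : y * (Real.log y) ^ 2 ≤ y * L ^ 2 := mul_le_mul_of_nonneg_left h1 hz0.le
    have e2 : y * (Complex.arg z) ^ 2 ≤ y * 4 := mul_le_mul_of_nonneg_left harg hz0.le
    have e3 : 2 * L * c ≤ 2 * L * (Real.pi / 2 * a) :=
      mul_le_mul_of_nonneg_left hb (by linarith)
    have e4 : y * 16 ≤ y * L ^ 2 := mul_le_mul_of_nonneg_left (by nlinarith) hz0.le
    nlinarith
  refine h2.trans ?_
  rcases le_total (4 * Real.pi * a) (L * y) with h | h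
  · have h3 : Real.pi * L * a - 1 / 4 * (y * L ^ 2) ≤ 0 := by
      have : Real.pi * L * a - 1 / 4 * (y * L ^ 2) = 1 / 4 * L * (4 * Real.pi * a - L * y) := by ring
      rw [this]
      exact mul_nonpos_of_nonneg_of_nonpos (by linarith) (by linarith)
    have h4 : 0 ≤ 2 * Real.pi * (a * Real.posLog a) := by
      have := Real.posLog_nonneg (x := a)
      positivity
    linarith
  · have hya : y ≤ 4 * a := by
      have e1 : 4 * y ≤ L * y := mul_le_mul_of_nonneg_right hL4 hz0.le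
      have e2 : 4 * Real.pi * a ≤ 16 * a := by nlinarith
      linarith
    have ha5 : 5 ≤ a := by linarith
    have hn : ‖z‖ ^ 2 = y ^ 2 + a ^ 2 := by
      rw [← Complex.normSq_eq_norm_sq, Complex.normSq_apply, ha, sq_abs]
      ring
    have hn2 : ‖z‖ ^ 2 ≤ (a ^ 2) ^ 2 := by
      rw [hn]
      have e1 : y ^ 2 ≤ (4 * a) ^ 2 := pow_le_pow_left₀ hz0.le hya 2
      have e2 : 25 ≤ a ^ 2 := by nlinarith
      nlinarith
    have hn3 : ‖z‖ ≤ a ^ 2 := (abs_le_of_sq_le_sq' hn2 (by positivity)).2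
    have hn4 : L ≤ 2 * Real.log a := by
      have e1 : L ≤ Real.log (a ^ 2) :=
        Real.log_le_log (lt_of_lt_of_le hz0 (Complex.re_le_norm z)) hn3
      rw [Real.log_pow] at e1
      simpa using e1
    have hpl : Real.posLog a = Real.log a := Real.posLog_eq_log (by rw [abs_of_nonneg ha0]; linarith)
    rw [hpl]
    have e1 : Real.pi * a * L ≤ Real.pi * a * (2 * Real.log a) :=
      mul_le_mul_of_nonneg_left hn4 (by positivity)
    have e2 : 0 ≤ y * L ^ 2 := by positivity
    nlinarith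


/-! ### The domain -/

/-- The height at which the domain starts. -/
noncomputable def Y0 (k : ℕ) : ℝ := Real.exp (400 * ((k : ℝ) + 1))

/-- The last coordinate. -/
noncomputable def ht {k : ℕ} (x : EuclideanSpace ℝ (Fin (k+2))) : ℝ := x (Fin.last (k+1))

/-- The sum of the absolute values of the other coordinates. -/
noncomputable def hs {k : ℕ} (x : EuclideanSpace ℝ (Fin (k+2))) : ℝ :=
  ∑ i : Fin (k+1), |x i.castSucc|

/-- The domain: `x_n > Y0` and `2 (|x_1| + ... + |x_{n-1}|) < (n-1) x_n log x_n`. -/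
def Dom (k : ℕ) : Set (EuclideanSpace ℝ (Fin (k+2))) :=
  {x | Y0 k < ht x ∧ 2 * hs x < ((k : ℝ) + 1) * (ht x * Real.log (ht x))}

theorem continuous_ht (k : ℕ) : Continuous (ht (k := k)) := by
  unfold ht; fun_prop

theorem continuous_hs (k : ℕ) : Continuous (hs (k := k)) := by
  unfold hs; fun_prop

theorem hs_nonneg {k : ℕ} (x : EuclideanSpace ℝ (Fin (k+2))) : 0 ≤ hs x :=
  Finset.sum_nonneg fun _ _ => abs_nonneg _

theorem continuous_ylogy (k : ℕ) :
    Continuous fun x : EuclideanSpace ℝ (Fin (k+2)) =>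
      ((k : ℝ) + 1) * (ht x * Real.log (ht x)) :=
  continuous_const.mul (Real.continuous_mul_log.comp (continuous_ht k))

theorem isOpen_Dom (k : ℕ) : IsOpen (Dom k) :=
  (isOpen_lt continuous_const (continuous_ht k)).inter
    (isOpen_lt (continuous_const.mul (continuous_hs k)) (continuous_ylogy k))

theorem Y0_pos (k : ℕ) : 0 < Y0 k := Real.exp_pos _

theorem log_Y0 (k : ℕ) : Real.log (Y0 k) = 400 * ((k : ℝ) + 1) := Real.log_exp _

theorem le_log_of_Y0_le {k : ℕ} {y : ℝ} (hy : Y0 k ≤ y) : 400 * ((k : ℝ) + 1) ≤ Real.log y := by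
  rw [← log_Y0]
  exact Real.log_le_log (Y0_pos k) hy

theorem lt_Y0 (k : ℕ) : 400 < Y0 k := by
  have h1 : 400 * ((k : ℝ) + 1) + 1 ≤ Y0 k := Real.add_one_le_exp _
  have h2 : (0 : ℝ) ≤ k := Nat.cast_nonneg k
  linarith

theorem norm_le_sum {k : ℕ} (x : EuclideanSpace ℝ (Fin (k+2))) : ‖x‖ ≤ hs x + |ht x| := by
  have h1 : x = ∑ i, x i • EuclideanSpace.basisFun (Fin (k+2)) ℝ i := by
    ext j
    simp [Pi.single_apply]
  have h2 : ‖x‖ ≤ ∑ i, |x i| := by
    conv_lhs => rw [h1]
    refine (norm_sum_le _ _).trans (le_of_eq ?_)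
    apply Finset.sum_congr rfl
    intro i _
    rw [norm_smul, OrthonormalBasis.norm_eq_one, mul_one, Real.norm_eq_abs]
  rw [Fin.sum_univ_castSucc] at h2
  exact h2

theorem abs_castSucc_le {k : ℕ} (x : EuclideanSpace ℝ (Fin (k+2))) (i : Fin (k+1)) :
    |x i.castSucc| ≤ hs x :=
  Finset.single_le_sum (f := fun i : Fin (k+1) => |x i.castSucc|) (fun _ _ => abs_nonneg _)
    (Finset.mem_univ i)

/-- The axis point at height `t`. -/
noncomputable def ax (k : ℕ) (t : ℝ) : EuclideanSpace ℝ (Fin (k+2)) :=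
  EuclideanSpace.single (Fin.last (k+1)) t

theorem ht_ax (k : ℕ) (t : ℝ) : ht (ax k t) = t := by
  simp [ht, ax]

theorem ax_castSucc (k : ℕ) (t : ℝ) (i : Fin (k+1)) : ax k t i.castSucc = 0 := by
  have : i.castSucc ≠ Fin.last (k+1) := (Fin.castSucc_lt_last i).ne
  simp [ax, this]

theorem hs_ax (k : ℕ) (t : ℝ) : hs (ax k t) = 0 := by
  unfold hs
  simp only [ax_castSucc, abs_zero, Finset.sum_const_zero]

theorem ax_mem_Dom {k : ℕ} {t : ℝ} (ht' : Y0 k < t) : ax k t ∈ Dom k := by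
  refine ⟨by rw [ht_ax]; exact ht', ?_⟩
  rw [ht_ax, hs_ax]
  have h1 := le_log_of_Y0_le ht'.le
  have h2 : (0 : ℝ) ≤ k := Nat.cast_nonneg k
  have h3 := Y0_pos k
  have h4 : 0 < Real.log t := by linarith
  have h5 : 0 < t := by linarith
  have h6 : 0 < ((k : ℝ) + 1) * (t * Real.log t) := by positivity
  linarith

theorem not_isBounded_Dom (k : ℕ) : ¬ Bornology.IsBounded (Dom k) := by
  intro hb
  obtain ⟨R, hR⟩ := hb.exists_norm_le
  have h0 := Y0_pos k
  have h1 := hR _ (ax_mem_Dom (k := k) (t := Y0 k + |R| + 1) (by linarith [abs_nonneg R]))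
  have h2 : ‖ax k (Y0 k + |R| + 1)‖ = |Y0 k + |R| + 1| := by
    rw [ax, PiLp.norm_single, Real.norm_eq_abs]
  rw [h2, abs_of_pos (by linarith [abs_nonneg R])] at h1
  linarith [le_abs_self R]

theorem isConnected_Dom (k : ℕ) : IsConnected (Dom k) := by
  have h0 := Y0_pos k
  have hbase : ax k (Y0 k + 1) ∈ Dom k := ax_mem_Dom (by linarith)
  have key : ∀ x ∈ Dom k, JoinedIn (Dom k) (ax k (Y0 k + 1)) x := by
    intro x hx
    have hx1 : Y0 k < ht x := hx.1
    have h1 : JoinedIn (Dom k) (ax k (Y0 k + 1)) (ax k (ht x)) := by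
      apply JoinedIn.of_segment_subset
      intro z hz
      obtain ⟨a, b, ha, hb, hab, rfl⟩ := hz
      have : a • ax k (Y0 k + 1) + b • ax k (ht x) = ax k (a * (Y0 k + 1) + b * ht x) := by
        ext j
        by_cases hj : j = Fin.last (k+1)
        · subst hj; simp [ax]
        · simp [ax, hj]
      rw [this]
      apply ax_mem_Dom
      rcases ha.lt_or_eq with h | h
      · have e1 : a * Y0 k < a * (Y0 k + 1) := by nlinarith
        have e2 : b * Y0 k ≤ b * ht x := mul_le_mul_of_nonneg_left hx1.le hb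
        have e3 : a * Y0 k + b * Y0 k = Y0 k := by rw [← add_mul, hab, one_mul]
        linarith
      · have hb1 : b = 1 := by linarith
        rw [← h, hb1]
        linarith
    have h2 : JoinedIn (Dom k) (ax k (ht x)) x := by
      apply JoinedIn.of_segment_subset
      intro z hz
      obtain ⟨a, b, ha, hb, hab, rfl⟩ := hz
      have e1 : ht (a • ax k (ht x) + b • x) = ht x := by
        have : ht (a • ax k (ht x) + b • x) = a * ht (ax k (ht x)) + b * ht x := by
          simp [ht]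
        rw [this, ht_ax, ← add_mul, hab, one_mul]
      have e2 : hs (a • ax k (ht x) + b • x) ≤ hs x := by
        unfold hs
        apply Finset.sum_le_sum
        intro i _
        have : (a • ax k (ht x) + b • x) i.castSucc = b * x i.castSucc := by
          have h3 := ax_castSucc k (ht x) i
          simp [h3]
        rw [this, abs_mul, abs_of_nonneg hb]
        have hb1 : b ≤ 1 := by linarith
        nlinarith [abs_nonneg (x i.castSucc)]
      exact ⟨by rw [e1]; exact hx.1, by rw [e1]; linarith [hx.2]⟩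
    exact h1.trans h2
  have hp : IsPathConnected (Dom k) := ⟨ax k (Y0 k + 1), hbase, fun {y} hy => key y hy⟩
  exact hp.isConnected

/-! ### A harmonic majorant of the norm -/

theorem zet_re' {k : ℕ} (i : Fin (k+1)) (x : EuclideanSpace ℝ (Fin (k+2))) :
    (zet k i x).re = ht x := zet_re k i x

theorem abs_zet_im {k : ℕ} (i : Fin (k+1)) (x : EuclideanSpace ℝ (Fin (k+2))) :
    |(zet k i x).im| = |x i.castSucc| := by
  rw [zet_im, abs_neg]

theorem harmonicAt_sum {n : ℕ} {ι : Type*} (s : Finset ι)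
    (f : ι → EuclideanSpace ℝ (Fin n) → ℝ) (x : EuclideanSpace ℝ (Fin n))
    (hf : ∀ i ∈ s, HarmonicAt (f i) x) : HarmonicAt (fun z => ∑ i ∈ s, f i z) x := by
  classical
  induction s using Finset.induction_on with
  | empty => simp
  | insert a s ha ih =>
    have h1 : (fun z => ∑ i ∈ insert a s, f i z) = f a + fun z => ∑ i ∈ s, f i z := by
      ext z
      rw [Finset.sum_insert ha]
      rfl
    rw [h1]
    exact (hf a (Finset.mem_insert_self a s)).add
      (ih fun i hi => hf i (Finset.mem_insert_of_mem hi))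

/-- The harmonic majorant of the norm. -/
noncomputable def hmaj (k : ℕ) : EuclideanSpace ℝ (Fin (k+2)) → ℝ :=
  (fun x => (zet k 0 x).re) + (5 / 2 : ℝ) • fun x => ∑ i : Fin (k+1), F1 (zet k i x)

theorem harmonic_hmaj {k : ℕ} {x : EuclideanSpace ℝ (Fin (k+2))} (hx : 1 < ht x) :
    HarmonicAt (hmaj k) x := by
  apply HarmonicAt.add
  · exact harmonicAt_comp_zet k 0 (fun z => z.re) x (harmonic_re _)
  · apply HarmonicAt.const_smul
    apply harmonicAt_sum
    intro i _
    exact harmonicAt_comp_zet k i F1 x (harmonic_F1 (by rw [zet_re']; exact hx))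

theorem hmaj_ge {k : ℕ} {x : EuclideanSpace ℝ (Fin (k+2))} (hx : x ∈ Dom k) : ‖x‖ ≤ hmaj k x := by
  have h0 := lt_Y0 k
  have hy : 400 < ht x := h0.trans hx.1
  have h1 : ∀ i : Fin (k+1), ht x * Real.log (ht x) - Real.pi / 2 * |x i.castSucc| ≤ F1 (zet k i x) := by
    intro i
    rw [F1_eq]
    have e1 := im_mul_arg_le (z := zet k i x) (by rw [zet_re']; linarith)
    rw [abs_zet_im] at e1
    have e2 : Real.log (ht x) ≤ Real.log ‖zet k i x‖ := by
      apply Real.log_le_log (by linarith)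
      have := Complex.re_le_norm (zet k i x)
      rwa [zet_re'] at this
    rw [zet_re']
    have e3 : ht x * Real.log (ht x) ≤ ht x * Real.log ‖zet k i x‖ :=
      mul_le_mul_of_nonneg_left e2 (by linarith)
    linarith
  have h2 : ((k : ℝ) + 1) * (ht x * Real.log (ht x)) - Real.pi / 2 * hs x ≤
      ∑ i : Fin (k+1), F1 (zet k i x) := by
    have e1 := Finset.sum_le_sum (s := Finset.univ) fun i (_ : i ∈ Finset.univ) => h1 i
    rw [Finset.sum_sub_distrib, Finset.sum_const, Finset.card_univ, Fintype.card_fin,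
      ← Finset.mul_sum, nsmul_eq_mul] at e1
    push_cast at e1
    exact e1
  have h3 : hmaj k x = ht x + 5 / 2 * ∑ i : Fin (k+1), F1 (zet k i x) := by
    simp only [hmaj, Pi.add_apply, Pi.smul_apply, smul_eq_mul, zet_re']
  have h4 := hx.2
  have h5 := norm_le_sum x
  rw [abs_of_pos (by linarith)] at h5
  have hpi : Real.pi < 3.2 := by
    have := Real.pi_lt_d2
    linarith
  have h6 : (2 - Real.pi / 2) * hs x ≤ ∑ i : Fin (k+1), F1 (zet k i x) := by linarith
  have h7 : 0.4 * hs x ≤ (2 - Real.pi / 2) * hs x :=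
    mul_le_mul_of_nonneg_right (by linarith) (hs_nonneg x)
  rw [h3]
  linarith

/-! ### The comparison functions -/

/-- The sum of the functions `F3` of the complex variables `x_n - i x_j`. -/
noncomputable def Gam (k : ℕ) : EuclideanSpace ℝ (Fin (k+2)) → ℝ :=
  fun x => ∑ i : Fin (k+1), F3 (zet k i x)

theorem harmonic_Gam {k : ℕ} {x : EuclideanSpace ℝ (Fin (k+2))} (hx : 1 < ht x) :
    HarmonicAt (Gam k) x := by
  apply harmonicAt_sum
  intro i _
  exact harmonicAt_comp_zet k i F3 x (harmonic_F3 (by rw [zet_re']; exact hx))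

/-- The logarithm of the modulus is close to the logarithm of the height. -/
theorem log_norm_le {m y : ℝ} (hm : 1 ≤ m) (hy : 1 < y) (hl : 400 * m ≤ Real.log y) {z : ℂ}
    (hz : z.re = y) (hb : 2 * |z.im| ≤ m * (y * Real.log y)) :
    Real.log ‖z‖ + 3 / 2 ≤ 11 / 10 * Real.log y := by
  set l := Real.log y with hldef
  have hl400 : 400 ≤ l := by linarith
  have h1 : ‖z‖ ≤ y * (1 + m * l / 2) := by
    have e1 := Complex.norm_le_abs_re_add_abs_im z
    rw [hz, abs_of_pos (by linarith)] at e1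
    nlinarith
  have hu : 1 + m * l / 2 ≤ (1 + l / 28) ^ 2 := by
    have e1 : m * l ≤ l / 400 * l := mul_le_mul_of_nonneg_right (by linarith) (by linarith)
    nlinarith
  have hpos : 0 < 1 + l / 28 := by linarith
  have h2 : Real.log (1 + m * l / 2) ≤ 2 * (l / 28) := by
    have e1 : Real.log (1 + m * l / 2) ≤ Real.log ((1 + l / 28) ^ 2) :=
      Real.log_le_log (by nlinarith) hu
    rw [Real.log_pow] at e1
    have e2 := Real.log_le_sub_one_of_pos hpos
    push_cast at e1
    linarith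
  have hn0 : 0 < ‖z‖ := by
    have := Complex.re_le_norm z
    rw [hz] at this
    linarith
  have h3 : Real.log ‖z‖ ≤ l + Real.log (1 + m * l / 2) := by
    rw [hldef, ← Real.log_mul (by linarith) (by nlinarith)]
    exact Real.log_le_log hn0 h1
  linarith

theorem F3_bounds {m y : ℝ} (hm : 1 ≤ m) (hy : 1 < y) (hl : 400 * m ≤ Real.log y) {z : ℂ}
    (hz : z.re = y) (hb : 2 * |z.im| ≤ m * (y * Real.log y)) :
    F3 z ≤ 1.155 * (y * (Real.log y * Real.sqrt (Real.log y))) ∧
    F3 z ≤ 1.155 * (y * (Real.log y * Real.sqrt (Real.log y))) -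
      2.355 * (Real.sqrt (Real.log y) * |z.im|) + 0 := by
  have h1 := F3_le (z := z) (by rw [hz]; exact hy)
  have h2 := log_norm_le hm hy hl hz hb
  have hz0 : 0 < z.re := by rw [hz]; linarith
  have h3 := im_mul_arg_nonneg z
  have h4 := le_im_mul_arg hz0
  have hyL : Real.log y ≤ Real.log ‖z‖ := by
    apply Real.log_le_log (by linarith)
    rw [← hz]
    exact Complex.re_le_norm z
  rw [hz] at h1 h4
  set l := Real.log y with hldef
  set L := Real.log ‖z‖ with hLdef
  set c := z.im * Complex.arg z with hc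
  set a := |z.im| with ha
  have ha0 : 0 ≤ a := abs_nonneg _
  have hl400 : 400 ≤ l := by linarith
  set r := Real.sqrt l with hr
  have hr0 : 0 < r := Real.sqrt_pos.mpr (by linarith)
  have hrl : r ^ 2 = l := Real.sq_sqrt (by linarith)
  have hR1 : Real.sqrt L ≤ 1.05 * r := by
    rw [Real.sqrt_le_left (by positivity)]
    rw [mul_pow, hrl]
    linarith
  have hR0 : r ≤ Real.sqrt L := Real.sqrt_le_sqrt hyL
  set R := Real.sqrt L with hRdef
  have hRpos : 0 < R := lt_of_lt_of_le hr0 hR0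
  have e1 : R * (L * y + 3 / 2 * y) ≤ 1.155 * (y * (l * r)) := by
    have f1 : L * y + 3 / 2 * y ≤ 1.1 * l * y := by nlinarith
    have f2 : R * (L * y + 3 / 2 * y) ≤ R * (1.1 * l * y) := mul_le_mul_of_nonneg_left f1 hRpos.le
    have f3 : R * (1.1 * l * y) ≤ (1.05 * r) * (1.1 * l * y) :=
      mul_le_mul_of_nonneg_right hR1 (by positivity)
    have f4 : (1.05 * r) * (1.1 * l * y) = 1.155 * (y * (l * r)) := by ring
    linarith
  constructor
  · have f1 : R * (L * y - 3 / 2 * c) ≤ R * (L * y + 3 / 2 * y) :=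
      mul_le_mul_of_nonneg_left (by linarith) hRpos.le
    linarith
  · have hpi := Real.pi_gt_d2
    have f1 : R * (L * y - 3 / 2 * c) ≤ R * ((L * y + 3 / 2 * y) - 2.355 * a) := by
      apply mul_le_mul_of_nonneg_left _ hRpos.le
      have : 3 / 2 * (Real.pi / 2 * a) ≥ 2.355 * a := by nlinarith
      linarith
    have f2 : r * a ≤ R * a := mul_le_mul_of_nonneg_right hR0 ha0
    nlinarith

/-- Closed region containing the closures of the truncated domains. -/
def Reg (k : ℕ) : Set (EuclideanSpace ℝ (Fin (k+2))) :=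
  {x | Y0 k ≤ ht x ∧ 2 * hs x ≤ ((k : ℝ) + 1) * (ht x * Real.log (ht x))}

theorem Reg_cond {k : ℕ} {x : EuclideanSpace ℝ (Fin (k+2))} (hx : x ∈ Reg k) (i : Fin (k+1)) :
    1 ≤ (k : ℝ) + 1 ∧ 1 < ht x ∧ 400 * ((k : ℝ) + 1) ≤ Real.log (ht x) ∧
      2 * |(zet k i x).im| ≤ ((k : ℝ) + 1) * (ht x * Real.log (ht x)) := by
  have h0 : (0 : ℝ) ≤ k := Nat.cast_nonneg k
  refine ⟨by linarith, by linarith [lt_Y0 k, hx.1], le_log_of_Y0_le hx.1, ?_⟩
  rw [abs_zet_im]
  linarith [abs_castSucc_le x i, hx.2]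

theorem Gam_le {k : ℕ} {x : EuclideanSpace ℝ (Fin (k+2))} (hx : x ∈ Reg k) :
    Gam k x ≤ ((k : ℝ) + 1) * (1.155 * (ht x * (Real.log (ht x) * Real.sqrt (Real.log (ht x))))) := by
  have h1 : ∀ i : Fin (k+1), F3 (zet k i x) ≤
      1.155 * (ht x * (Real.log (ht x) * Real.sqrt (Real.log (ht x)))) := by
    intro i
    obtain ⟨c1, c2, c3, c4⟩ := Reg_cond hx i
    exact (F3_bounds c1 c2 c3 (zet_re' i x) c4).1
  have e1 := Finset.sum_le_sum (s := Finset.univ) fun i (_ : i ∈ Finset.univ) => h1 i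
  rw [Finset.sum_const, Finset.card_univ, Fintype.card_fin, nsmul_eq_mul] at e1
  push_cast at e1
  exact e1

theorem Gam_side {k : ℕ} {x : EuclideanSpace ℝ (Fin (k+2))} (hx : x ∈ Reg k)
    (hside : 2 * hs x = ((k : ℝ) + 1) * (ht x * Real.log (ht x))) : Gam k x ≤ 0 := by
  have h1 : ∀ i : Fin (k+1), F3 (zet k i x) ≤
      1.155 * (ht x * (Real.log (ht x) * Real.sqrt (Real.log (ht x)))) -
        2.355 * (Real.sqrt (Real.log (ht x)) * |x i.castSucc|) := by
    intro i
    obtain ⟨c1, c2, c3, c4⟩ := Reg_cond hx i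
    have := (F3_bounds c1 c2 c3 (zet_re' i x) c4).2
    rwa [abs_zet_im, add_zero] at this
  have e1 := Finset.sum_le_sum (s := Finset.univ) fun i (_ : i ∈ Finset.univ) => h1 i
  rw [Finset.sum_sub_distrib, Finset.sum_const, Finset.card_univ, Fintype.card_fin, nsmul_eq_mul,
    ← Finset.mul_sum, ← Finset.mul_sum] at e1
  push_cast at e1
  change Gam k x ≤ _ - 2.355 * (Real.sqrt (Real.log (ht x)) * hs x) at e1
  have h2 : hs x = ((k : ℝ) + 1) * (ht x * Real.log (ht x)) / 2 := by linarith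
  rw [h2] at e1
  obtain ⟨c1, c2, c3, -⟩ := Reg_cond hx 0
  have h3 : 0 ≤ ((k : ℝ) + 1) * (ht x * (Real.log (ht x) * Real.sqrt (Real.log (ht x)))) := by
    have : 0 ≤ Real.log (ht x) := by linarith
    positivity
  nlinarith

/-- The constant bounding `Gam` on the bottom of the domain. -/
noncomputable def K0 (k : ℕ) : ℝ :=
  ((k : ℝ) + 1) * (1.155 * (Y0 k * (Real.log (Y0 k) * Real.sqrt (Real.log (Y0 k)))))

theorem K0_nonneg (k : ℕ) : 0 ≤ K0 k := by
  have h1 := Y0_pos k
  have h2 : 0 ≤ Real.log (Y0 k) := by rw [log_Y0]; positivity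
  unfold K0
  positivity

/-- The minorants. -/
noncomputable def vT (k : ℕ) (M : ℝ) : EuclideanSpace ℝ (Fin (k+2)) → ℝ :=
  (2 * Real.pi)⁻¹ • ((-(fun x => F2 (zet k 0 x))) + M • (Gam k - fun _ => K0 k))

theorem vT_apply (k : ℕ) (M : ℝ) (x : EuclideanSpace ℝ (Fin (k+2))) :
    vT k M x = (2 * Real.pi)⁻¹ * (- F2 (zet k 0 x) + M * (Gam k x - K0 k)) := rfl

theorem harmonic_vT {k : ℕ} (M : ℝ) {x : EuclideanSpace ℝ (Fin (k+2))} (hx : 1 < ht x) :
    HarmonicAt (vT k M) x := by
  apply HarmonicAt.const_smul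
  apply HarmonicAt.add
  · apply HarmonicAt.neg
    exact harmonicAt_comp_zet k 0 F2 x (harmonic_F2 (by rw [zet_re']; exact hx))
  · apply HarmonicAt.const_smul
    exact (harmonic_Gam hx).sub (harmonicAt_const _)

/-- The function of the problem. -/
noncomputable def uu {k : ℕ} (x : EuclideanSpace ℝ (Fin (k+2))) : ℝ :=
  |x 0| * Real.posLog |x 0|

theorem continuous_uu (k : ℕ) : Continuous (uu (k := k)) := by
  unfold uu
  have h1 : Continuous fun x : EuclideanSpace ℝ (Fin (k+2)) => |x 0| := by fun_prop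
  exact h1.mul (Real.continuous_posLog.comp h1)

theorem vT_le {k : ℕ} {M : ℝ} {x : EuclideanSpace ℝ (Fin (k+2))} (hx : Y0 k ≤ ht x)
    (hM : M * (Gam k x - K0 k) ≤ 1 / 2 * (ht x * (Real.log (ht x)) ^ 2)) : vT k M x ≤ uu x := by
  rw [vT_apply]
  have h1 := minorant_bound (z := zet k 0 x) (by rw [zet_re']; linarith [lt_Y0 k])
    (by rw [zet_re']; linarith [le_log_of_Y0_le hx, (Nat.cast_nonneg k : (0 : ℝ) ≤ k)])
    (M * (Gam k x - K0 k)) (by rw [zet_re']; exact hM)
  rw [abs_zet_im] at h1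
  have h2 : |x (Fin.castSucc (0 : Fin (k+1)))| * Real.posLog |x (Fin.castSucc (0 : Fin (k+1)))| = uu x := rfl
  rw [h2] at h1
  have hpi := Real.pi_pos
  rw [inv_mul_le_iff₀ (by positivity)]
  linarith

/-- The truncated domains. -/
def DT (k : ℕ) (T : ℝ) : Set (EuclideanSpace ℝ (Fin (k+2))) := Dom k ∩ {x | ht x < T}

theorem isOpen_DT (k : ℕ) (T : ℝ) : IsOpen (DT k T) :=
  (isOpen_Dom k).inter (isOpen_lt (continuous_ht k) continuous_const)

theorem closure_DT {k : ℕ} {T : ℝ} {x : EuclideanSpace ℝ (Fin (k+2))} (hx : x ∈ closure (DT k T)) :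
    x ∈ Reg k ∧ ht x ≤ T := by
  have hcl : IsClosed (Reg k ∩ {x | ht x ≤ T}) := by
    apply IsClosed.inter
    · exact (isClosed_le continuous_const (continuous_ht k)).inter
        (isClosed_le (continuous_const.mul (continuous_hs k)) (continuous_ylogy k))
    · exact isClosed_le (continuous_ht k) continuous_const
  have hsub : DT k T ⊆ Reg k ∩ {x | ht x ≤ T} := fun z hz =>
    ⟨⟨hz.1.1.le, hz.1.2.le⟩, (show ht z < T from hz.2).le⟩
  exact closure_minimal hsub hcl hx

theorem frontier_DT {k : ℕ} {T : ℝ} {x : EuclideanSpace ℝ (Fin (k+2))} (hx : x ∈ frontier (DT k T)) :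
    x ∈ Reg k ∧ (ht x = Y0 k ∨ ht x = T ∨ 2 * hs x = ((k : ℝ) + 1) * (ht x * Real.log (ht x))) := by
  rw [(isOpen_DT k T).frontier_eq] at hx
  obtain ⟨h1, h2⟩ := closure_DT hx.1
  refine ⟨h1, ?_⟩
  by_contra hcon
  push Not at hcon
  apply hx.2
  exact ⟨⟨lt_of_le_of_ne h1.1 (Ne.symm hcon.1), lt_of_le_of_ne h1.2 hcon.2.2⟩,
    lt_of_le_of_ne h2 hcon.2.1⟩

theorem isBounded_DT (k : ℕ) (T : ℝ) : Bornology.IsBounded (DT k T) := by
  have h0 := lt_Y0 k
  refine (Metric.isBounded_closedBall (x := (0 : EuclideanSpace ℝ (Fin (k+2))))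
    (r := ((k : ℝ) + 1) * (|T| * |T|) + |T|)).subset ?_
  intro x hx
  rw [mem_closedBall_zero_iff]
  have h1 := norm_le_sum x
  have h2 : Y0 k < ht x := hx.1.1
  have h3 : ht x < T := hx.2
  have h4 := hx.1.2
  have hT : 0 < T := by linarith
  rw [abs_of_pos hT]
  rw [abs_of_pos (by linarith)] at h1
  have h5 : Real.log (ht x) ≤ ht x := (Real.log_le_sub_one_of_pos (by linarith)).trans (by linarith)
  have h6 : ht x * Real.log (ht x) ≤ ht x * ht x := mul_le_mul_of_nonneg_left h5 (by linarith)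
  have h7 : ht x * ht x ≤ T * T := by nlinarith
  have h8 : ((k : ℝ) + 1) * (ht x * Real.log (ht x)) ≤ ((k : ℝ) + 1) * (T * T) :=
    mul_le_mul_of_nonneg_left (h6.trans h7) (by positivity)
  have h9 := hs_nonneg x
  linarith

theorem vT_le_frontier {k : ℕ} {T : ℝ} (hT : Y0 k < T) {x : EuclideanSpace ℝ (Fin (k+2))}
    (hx : x ∈ frontier (DT k T)) :
    vT k (Real.sqrt (Real.log T) / (3 * ((k : ℝ) + 1))) x ≤ uu x := by
  obtain ⟨hR, hcase⟩ := frontier_DT hx
  have hk : (0 : ℝ) ≤ k := Nat.cast_nonneg k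
  have hy0 : 0 < ht x := by linarith [lt_Y0 k, hR.1]
  have hM : 0 ≤ Real.sqrt (Real.log T) / (3 * ((k : ℝ) + 1)) := by positivity
  have hrhs : 0 ≤ 1 / 2 * (ht x * (Real.log (ht x)) ^ 2) := by positivity
  apply vT_le hR.1
  rcases hcase with h | h | h
  · have h1 := Gam_le hR
    have h2 : Gam k x ≤ K0 k := by
      rw [h] at h1
      exact h1
    have h3 : Real.sqrt (Real.log T) / (3 * ((k : ℝ) + 1)) * (Gam k x - K0 k) ≤ 0 :=
      mul_nonpos_of_nonneg_of_nonpos hM (by linarith)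
    linarith
  · have h1 := Gam_le hR
    have hK := K0_nonneg k
    rw [h] at h1 hy0 ⊢
    set l := Real.log T with hl
    have hl0 : 0 ≤ l := by
      have := le_log_of_Y0_le hT.le
      rw [hl]
      linarith
    set r := Real.sqrt l with hr
    have hrr : r * r = l := Real.mul_self_sqrt hl0
    calc r / (3 * ((k : ℝ) + 1)) * (Gam k x - K0 k)
        ≤ r / (3 * ((k : ℝ) + 1)) * (((k : ℝ) + 1) * (1.155 * (T * (l * r)))) :=
          mul_le_mul_of_nonneg_left (by linarith) hM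
      _ = 0.385 * (T * (l * (r * r))) := by
          field_simp
          ring
      _ ≤ 1 / 2 * (T * l ^ 2) := by
          rw [hrr]
          have : 0 ≤ T * l ^ 2 := by positivity
          nlinarith
  · have h1 := Gam_side hR h
    have hK := K0_nonneg k
    have h3 : Real.sqrt (Real.log T) / (3 * ((k : ℝ) + 1)) * (Gam k x - K0 k) ≤ 0 :=
      mul_nonpos_of_nonneg_of_nonpos hM (by linarith)
    linarith

/-- Every harmonic majorant dominates the minorants. -/
theorem vT_le_majorant {k : ℕ} {h : EuclideanSpace ℝ (Fin (k+2)) → ℝ}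
    (hh : HarmonicOnNhd h (Dom k)) (hmaj : ∀ x ∈ Dom k, uu x ≤ h x) {T : ℝ} (hT : Y0 k < T)
    {x : EuclideanSpace ℝ (Fin (k+2))} (hx : x ∈ DT k T) :
    vT k (Real.sqrt (Real.log T) / (3 * ((k : ℝ) + 1))) x ≤ h x := by
  set M := Real.sqrt (Real.log T) / (3 * ((k : ℝ) + 1)) with hM
  have hv : ∀ z ∈ closure (DT k T), HarmonicAt (vT k M) z := by
    intro z hz
    exact harmonic_vT M (by linarith [lt_Y0 k, (closure_DT hz).1.1])
  refine max_principle (isOpen_DT k T) (isBounded_DT k T) (v := vT k M) (h := h)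
    (ψ := fun z => vT k M z - uu z) (fun z hz => hv z (subset_closure hz))
    (hh.mono inter_subset_left) ?_ ?_ ?_ x hx
  · intro z hz
    exact ((hv z hz).1.continuousAt.sub (continuous_uu k).continuousAt).continuousWithinAt
  · intro z hz
    have := vT_le_frontier hT hz
    show vT k M z - uu z ≤ 0
    linarith
  · intro z hz
    have := hmaj z hz.1
    show vT k M z - h z ≤ vT k M z - uu z
    linarith

theorem Gam_ax {k : ℕ} {t : ℝ} (ht' : 1 < t) :
    Gam k (ax k t) = ((k : ℝ) + 1) * (t * (Real.log t * Real.sqrt (Real.log t))) := by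
  have h1 : ∀ i : Fin (k+1), F3 (zet k i (ax k t)) = t * (Real.log t * Real.sqrt (Real.log t)) := by
    intro i
    have : zet k i (ax k t) = (t : ℂ) := by
      rw [zet_apply, ax_castSucc]
      have := ht_ax k t
      unfold ht at this
      rw [this]
      simp
    rw [this, F3_real ht']
  unfold Gam
  rw [Finset.sum_congr rfl fun i _ => h1 i, Finset.sum_const, Finset.card_univ, Fintype.card_fin,
    nsmul_eq_mul]
  push_cast
  ring

theorem no_majorant (k : ℕ) : ¬ ∃ h : EuclideanSpace ℝ (Fin (k+2)) → ℝ,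
    HarmonicOnNhd h (Dom k) ∧ ∀ x ∈ Dom k, uu x ≤ h x := by
  rintro ⟨h, hh, hmaj⟩
  have hY := lt_Y0 k
  have hk : (0 : ℝ) ≤ k := Nat.cast_nonneg k
  set t₀ : ℝ := 2 * Y0 k with ht₀
  have ht₀1 : Y0 k < t₀ := by linarith
  set x₀ := ax k t₀ with hx₀
  have hx₀D : x₀ ∈ Dom k := ax_mem_Dom ht₀1
  -- the gain
  have hG : ((k : ℝ) + 1) * Y0 k / 2 ≤ Gam k x₀ - K0 k := by
    rw [hx₀, Gam_ax (by linarith)]
    unfold K0
    set l := Real.log (Y0 k) with hl
    have hl1 : 1 ≤ l := by rw [hl, log_Y0]; linarith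
    have hll : l ≤ Real.log t₀ := Real.log_le_log (Y0_pos k) ht₀1.le
    have hr1 : 1 ≤ Real.sqrt l := by
      rw [Real.one_le_sqrt]; exact hl1
    have hrr : Real.sqrt l ≤ Real.sqrt (Real.log t₀) := Real.sqrt_le_sqrt hll
    have e1 : l * Real.sqrt l ≤ Real.log t₀ * Real.sqrt (Real.log t₀) :=
      mul_le_mul hll hrr (by linarith) (by linarith)
    have e2 : 1 ≤ l * Real.sqrt l := by nlinarith
    have e3 : t₀ * (l * Real.sqrt l) ≤ t₀ * (Real.log t₀ * Real.sqrt (Real.log t₀)) :=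
      mul_le_mul_of_nonneg_left e1 (by linarith)
    have e4 : Y0 k / 2 ≤ t₀ * (Real.log t₀ * Real.sqrt (Real.log t₀)) -
        1.155 * (Y0 k * (l * Real.sqrt l)) := by
      have e5 : Y0 k ≤ Y0 k * (l * Real.sqrt l) := by nlinarith
      rw [ht₀] at e3 ⊢
      linarith
    have e6 := mul_le_mul_of_nonneg_left e4 (show (0 : ℝ) ≤ (k : ℝ) + 1 by linarith)
    linarith
  set G := Gam k x₀ - K0 k with hGdef
  have hGpos : 1 ≤ G := by nlinarith
  set A := F2 (zet k 0 x₀) with hA
  -- choose the truncation height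
  set Q : ℝ := 2 * Real.pi * |h x₀| + |A| + 1 with hQ
  have hpi := Real.pi_pos
  have hQ1 : 1 ≤ Q := by
    have : 0 ≤ 2 * Real.pi * |h x₀| := by positivity
    linarith [abs_nonneg A]
  set R : ℝ := 3 * ((k : ℝ) + 1) * Q + Real.log t₀ + 1 with hR
  have hlt₀ : 0 < Real.log t₀ := Real.log_pos (by linarith)
  have hR1 : 1 < R := by
    have : 0 < 3 * ((k : ℝ) + 1) * Q := by positivity
    linarith
  set T : ℝ := Real.exp (R ^ 2) with hTdef
  have hlogT : Real.log T = R ^ 2 := Real.log_exp _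
  have ht₀T : t₀ < T := by
    rw [← Real.exp_log (show 0 < t₀ by linarith), hTdef]
    apply Real.exp_lt_exp.mpr
    have e1 : 0 < 3 * ((k : ℝ) + 1) * Q := by positivity
    nlinarith
  have hxT : x₀ ∈ DT k T := ⟨hx₀D, by show ht x₀ < T; rw [hx₀, ht_ax]; exact ht₀T⟩
  have hle := vT_le_majorant hh hmaj (ht₀1.trans ht₀T) hxT
  rw [vT_apply, hlogT, Real.sqrt_sq (by linarith), inv_mul_le_iff₀ (by positivity)] at hle
  have hM : Q ≤ R / (3 * ((k : ℝ) + 1)) := by
    rw [le_div_iff₀ (by positivity)]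
    nlinarith
  have h1 : Q * 1 ≤ R / (3 * ((k : ℝ) + 1)) * G :=
    mul_le_mul hM hGpos (by norm_num) (by positivity)
  have h2 : 2 * Real.pi * h x₀ ≤ 2 * Real.pi * |h x₀| :=
    mul_le_mul_of_nonneg_left (le_abs_self _) (by positivity)
  have h3 := le_abs_self A
  change - A + R / (3 * ((k : ℝ) + 1)) * G ≤ 2 * Real.pi * h x₀ at hle
  linarith

/-- For every `n ≥ 2` there is an unbounded domain in `ℝ^n` on which the norm has a harmonic
majorant while `|x_1| log^+ |x_1|` has none. -/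
theorem result : ∀ (n : ℕ) (hn : 2 ≤ n), ∃ D : Set (EuclideanSpace ℝ (Fin n)),
    IsOpen D ∧ IsConnected D ∧ ¬ Bornology.IsBounded D ∧
    (∃ h : EuclideanSpace ℝ (Fin n) → ℝ, HarmonicOnNhd h D ∧ ∀ x ∈ D, ‖x‖ ≤ h x) ∧
    ¬ ∃ h : EuclideanSpace ℝ (Fin n) → ℝ, HarmonicOnNhd h D ∧
      ∀ x ∈ D, |x ⟨0, by omega⟩| * Real.posLog |x ⟨0, by omega⟩| ≤ h x := by
  intro n hn
  obtain ⟨k, rfl⟩ : ∃ k, n = k + 2 := ⟨n - 2, by omega⟩
  refine ⟨Dom k, isOpen_Dom k, isConnected_Dom k, not_isBounded_Dom k, ⟨hmaj k, ?_, ?_⟩, ?_⟩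
  · intro x hx
    exact harmonic_hmaj (by linarith [lt_Y0 k, hx.1])
  · intro x hx
    exact hmaj_ge hx
  · exact no_majorant k

end Pool.Agent.Results.MP_677f70_an.LogMajorant
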